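import Pool.Agent.K4H33.CP.Defs

/-!
# Weil numbers and couplings of slope distributions: definitions
-/

set_option autoImplicit false

open Polynomial

namespace Pool.Agent.K4H33.WN

open Pool.Agent.K4H33.CP

/-- The element `lam` of a field of characteristic zero is an algebraic integer, all of whose complex
conjugates have the absolute value `q ^ (d / 2)`, where `q = p ^ e`. -/
structure IsWeilNumber {K : Type*} [Field K] [CharZero K] (p e d : ℕ) (lam : K) : Prop where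
  integral : IsIntegral ℤ lam
  abs : ∀ z : ℂ, aeval z (minpoly ℚ lam) = 0 → ‖z‖ ^ 2 = ((p : ℝ) ^ e) ^ d

/-- Let `𝓕 l d`, `d = 0, 1, 2, …`, be sets of rational polynomials, for each `l`. Their slopes (for
`q = p ^ e`) are *independent* at the indices in `S` if all couplings of the slope distributions of
polynomials `f l` in `𝓕 l (d l)`, with even sum of the degrees `d l`, are constant at the indices
`l` in `S`, with `d l` even and `s l = d l / 2`. -/
def Independent (p : ℕ) [Fact p.Prime] {κ : Type} [Fintype κ] (e : ℕ)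
    (𝓕 : κ → ℕ → Set ℚ[X]) (S : Set κ) : Prop :=
  ∀ (d : κ → ℕ) (f : κ → ℚ[X]), (∀ l, f l ∈ 𝓕 l (d l)) → Even (∑ l, d l) →
    ∀ (N : ℕ) (s : κ → Fin N → ℝ), IsCoupling p (fun _ => e) d f N s →
      ∀ l ∈ S, Even (d l) ∧ ∀ g, s l g = (d l : ℝ) / 2

/-- The polynomials in the sets `𝓕 d` have slopes *of K3 type with height `h` and transcendental
rank `t`*: there are none for odd `d`, and for each `f` in `𝓕 (2 j)` either all roots of `f` have
slope `j`, or the slopes are `j - 1 / h`, `j` and `j + 1 / h`, and the first and the last one occur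
with frequency `h / t`. -/
structure IsK3Type (p : ℕ) [Fact p.Prime] (e : ℕ) (𝓕 : ℕ → Set ℚ[X]) (h t : ℕ) : Prop where
  pos : 0 < h
  odd : ∀ i, Odd i → 𝓕 i = ∅
  slopes : ∀ (j : ℕ), ∀ f ∈ 𝓕 (2 * j),
    (∀ y : PadicAlgCl p, aeval y f = 0 → ‖y‖ = ((p : ℝ) ^ e) ^ (-(j : ℝ))) ∨
    ((∀ y : PadicAlgCl p, aeval y f = 0 → ∃ ε : ℤ, |ε| ≤ 1 ∧
        ‖y‖ = ((p : ℝ) ^ e) ^ (-((j : ℝ) + (ε : ℝ) / h))) ∧
      ∀ ε : ℤ, |ε| = 1 →
        slopeCount p e f ((j : ℝ) + (ε : ℝ) / h) * t = h * f.natDegree)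

/-- The sets `𝓕 d` are empty for odd `d`, and the slopes of the polynomials in `𝓕 (2 j)` are of the
form `j + k / h` with integers `k` of absolute value at most `n`. -/
structure SlopesNear (p : ℕ) [Fact p.Prime] (e : ℕ) (𝓕 : ℕ → Set ℚ[X]) (h n : ℕ) : Prop where
  odd : ∀ i, Odd i → 𝓕 i = ∅
  slopes : ∀ (j : ℕ), ∀ f ∈ 𝓕 (2 * j), ∀ y : PadicAlgCl p,
    aeval y f = 0 → ∃ m : ℤ, |m| ≤ n ∧ ‖y‖ = ((p : ℝ) ^ e) ^ (-((j : ℝ) + (m : ℝ) / h))

/-- The positive number `D` is a common denominator of the slopes of the polynomials in the sets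
`𝓕 d` with even `d`. -/
def IsEvenDenominator (p : ℕ) [Fact p.Prime] (e : ℕ) (𝓕 : ℕ → Set ℚ[X]) (D : ℕ) : Prop :=
  0 < D ∧ ∀ (j : ℕ), ∀ f ∈ 𝓕 (2 * j), ∀ y : PadicAlgCl p,
    aeval y f = 0 → ∃ m : ℤ, ‖y‖ ^ D = ((p : ℝ) ^ e) ^ (-m)

/-- The sets of polynomials `𝓕 l` and, with the index `none`, `𝓖`. -/
def withU {κ α : Type*} (𝓕 : κ → α) (𝓖 : α) (l : Option κ) : α := l.elim 𝓖 𝓕

end Pool.Agent.K4H33.WN
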