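import Pool.Agent.K4H33.WN.Couple
import Pool.Agent.K4H33.CP.Final

/-!
# Slopes of K3 type
-/

set_option autoImplicit false

open Polynomial

namespace Pool.Agent.K4H33.WN

open Pool.Agent.K4H33.CP (IsCoupling slopeCount NoZeroSum NoIntegralSum DifferentHeights
  exists_root_of_marginal slope_unique noZeroSum_different noIntegralSum_one noIntegralSum_two
  noZeroSum_super)

variable {p : ℕ} {e : ℕ}

/-- The random variable of a system of K3 type. -/
lemma IsK3Type.extract [Fact p.Prime] (he : 0 < e) {𝓕 : ℕ → Set ℚ[X]} {h t : ℕ}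
    (hY : IsK3Type p e 𝓕 h t) {d : ℕ} {f : ℚ[X]} (hirr : Irreducible f)
    (hf : f ∈ 𝓕 d) {N : ℕ} {s : Fin N → ℝ}
    (hm : ∀ x : ℝ, {g | s g = x}.ncard * f.natDegree = slopeCount p e f x * N) :
    ∃ j : ℕ, d = 2 * j ∧ ∃ ε : Fin N → ℤ,
      (∀ g, |ε g| ≤ 1 ∧ s g = (j : ℝ) + (ε g : ℝ) / h) ∧
      ((∀ g, ε g = 0) ∨ ∀ a : ℤ, |a| = 1 → {g | ε g = a}.ncard * t = h * N) := by
  rcases Nat.even_or_odd d with ⟨j, hj⟩ | hodd
  swap
  · rw [hY.odd d hodd] at hf
    exact hf.elim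
  obtain rfl : d = 2 * j := by omega
  refine ⟨j, rfl, ?_⟩
  rcases hY.slopes j f hf with h1 | ⟨h1, h2⟩
  · refine ⟨fun _ => 0, fun g => ⟨by simp, ?_⟩, Or.inl fun _ => rfl⟩
    obtain ⟨y, hy, hs⟩ := exists_root_of_marginal hirr hm g
    rw [h1 y hy] at hs
    rw [Int.cast_zero, zero_div, add_zero]
    exact (slope_unique he hs).symm
  · have h3 : ∀ g, ∃ ε : ℤ, |ε| ≤ 1 ∧ s g = (j : ℝ) + (ε : ℝ) / h := by
      intro g
      obtain ⟨y, hy, hs⟩ := exists_root_of_marginal hirr hm g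
      obtain ⟨ε, hε, hy'⟩ := h1 y hy
      rw [hy'] at hs
      exact ⟨ε, hε, (slope_unique he hs).symm⟩
    choose ε hε using h3
    refine ⟨ε, hε, Or.inr fun a ha => ?_⟩
    have h4 : {g | ε g = a} = {g | s g = (j : ℝ) + (a : ℝ) / h} := by
      ext g
      rw [Set.mem_ofPred_eq, Set.mem_ofPred_eq, (hε g).2]
      have hh : (h : ℝ) ≠ 0 := by exact_mod_cast hY.pos.ne'
      constructor
      · rintro rfl
        rfl
      · intro h5
        have h6 : (ε g : ℝ) = a := by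
          field_simp at h5
          linarith
        exact_mod_cast h6
    have h5 := hm ((j : ℝ) + (a : ℝ) / h)
    rw [← h4] at h5
    have h6 := h2 a ha
    apply Nat.eq_of_mul_eq_mul_left hirr.natDegree_pos
    calc f.natDegree * ({g | ε g = a}.ncard * t)
        = ({g | ε g = a}.ncard * f.natDegree) * t := by ring
      _ = (slopeCount p e f ((j : ℝ) + (a : ℝ) / h) * t) * N := by rw [h5]; ring
      _ = _ := by rw [h6]; ring

lemma SlopesNear.extract [Fact p.Prime] (he : 0 < e) {𝓕 : ℕ → Set ℚ[X]} {h n : ℕ}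
    (hY : SlopesNear p e 𝓕 h n) {d : ℕ} {f : ℚ[X]} (hirr : Irreducible f)
    (hf : f ∈ 𝓕 d) {N : ℕ} {s : Fin N → ℝ}
    (hm : ∀ x : ℝ, {g | s g = x}.ncard * f.natDegree = slopeCount p e f x * N) :
    ∃ j : ℕ, d = 2 * j ∧ ∀ g, ∃ m : ℤ, |m| ≤ n ∧ s g = (j : ℝ) + (m : ℝ) / h := by
  rcases Nat.even_or_odd d with ⟨j, hj⟩ | hodd
  swap
  · rw [hY.odd d hodd] at hf
    exact hf.elim
  obtain rfl : d = 2 * j := by omega
  refine ⟨j, rfl, fun g => ?_⟩
  obtain ⟨y, hy, hs⟩ := exists_root_of_marginal hirr hm g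
  obtain ⟨m, hm, hy'⟩ := hY.slopes j f hf y hy
  rw [hy'] at hs
  exact ⟨m, hm, (slope_unique he hs).symm⟩

section

variable {κ : Type} [Fintype κ] {𝓕 : κ → ℕ → Set ℚ[X]} {𝓖 : ℕ → Set ℚ[X]} {h t : κ → ℕ}

theorem independent_of_noZeroSum [Fact p.Prime] (he : 0 < e)
    (hirr : ∀ l d, ∀ f ∈ 𝓕 l d, Irreducible f)
    (hX : ∀ l, IsK3Type p e (𝓕 l) (h l) (t l))
    (hno : NoZeroSum h t) : Independent p e 𝓕 Set.univ := by
  intro d f hf _ N s hc
  have h1 := fun l => (hX l).extract he (hirr l _ _ (hf l)) (hf l) (hc.marginal l)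
  choose j hj ε hε hfreq using h1
  have h2 : ∀ g, ∑ l, (ε l g : ℚ) / h l = 0 := by
    intro g
    have h3 := hc.sum g
    have h4 : ∑ l, s l g = ∑ l, (j l : ℝ) + ∑ l, (ε l g : ℝ) / h l := by
      rw [← Finset.sum_add_distrib]
      exact Finset.sum_congr rfl fun l _ => (hε l g).2
    have h5 : ∑ l, (d l : ℝ) = 2 * ∑ l, (j l : ℝ) := by
      rw [Finset.mul_sum]
      refine Finset.sum_congr rfl fun l _ => ?_
      rw [hj l]
      push_cast
      ring
    rw [h4, h5] at h3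
    have h6 : ∑ l, (ε l g : ℝ) / h l = 0 := by linarith
    exact_mod_cast h6
  have h3 := hno N ε hc.pos (fun l g => (hε l g).1) hfreq h2
  intro l _
  refine ⟨by rw [hj l]; exact even_two_mul _, fun g => ?_⟩
  rw [(hε l g).2, h3 l g, hj l]
  push_cast
  ring

/-- The fractional part of the slope of `U` in a coupling. -/
lemma integral_of_denominator [Fact p.Prime] (he : 0 < e) {D : ℕ}
    (hirrU : ∀ d, ∀ f ∈ 𝓖 d, Irreducible f) (hU : IsEvenDenominator p e 𝓖 D)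
    {d : Option κ → ℕ} {f : Option κ → ℚ[X]} (hfn : f none ∈ 𝓖 (d none)) {N : ℕ}
    {s : Option κ → Fin N → ℝ}
    (hc : IsCoupling p (fun _ => e) d f N s) {j : κ → ℕ} {j₀ : ℕ} (hj₀' : d none = 2 * j₀)
    (hj : ∀ l, d (some l) = 2 * j l) {x : κ → ℝ} {g : Fin N}
    (hx : ∀ l, s (some l) g = (j l : ℝ) + x l) : ∃ m : ℤ, (D : ℝ) * ∑ l, x l = m := by
  have h3 := hc.sum g
  rw [Fintype.sum_option, Fintype.sum_option] at h3
  have h4 : ∑ l, s (some l) g = ∑ l, (j l : ℝ) + ∑ l, x l := by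
    rw [← Finset.sum_add_distrib]
    exact Finset.sum_congr rfl fun l _ => hx l
  have h5 : ∑ l, (d (some l) : ℝ) = 2 * ∑ l, (j l : ℝ) := by
    rw [Finset.mul_sum]
    refine Finset.sum_congr rfl fun l _ => ?_
    rw [hj l]
    push_cast
    ring
  rw [h4, h5, hj₀'] at h3
  push_cast at h3
  rw [hj₀'] at hfn
  obtain ⟨y, hy, hs⟩ := exists_root_of_marginal (hirrU _ _ hfn) (hc.marginal none) g
  obtain ⟨m, hm⟩ := hU.2 j₀ (f none) hfn y hy
  have hp1 : (1 : ℝ) < p := by exact_mod_cast (Fact.out : p.Prime).one_lt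
  have hq : (1 : ℝ) < (p : ℝ) ^ e := one_lt_pow₀ hp1 he.ne'
  have h6 : (D : ℝ) * s none g = m := by
    have hs' : ‖y‖ = ((p : ℝ) ^ e) ^ (-s none g) := hs
    rw [hs', ← Real.rpow_natCast, ← Real.rpow_mul (by positivity), ← Real.rpow_intCast] at hm
    have h7 := (Real.rpow_right_inj (zero_lt_one.trans hq) hq.ne').1 hm
    push_cast at h7
    linarith
  refine ⟨D * j₀ - m, ?_⟩
  have h8 : ∑ l, x l = (j₀ : ℝ) - s none g := by linarith
  rw [h8, mul_sub, h6]
  push_cast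
  ring

lemma even_none {d : Option κ → ℕ} {j : κ → ℕ} (hev : Even (∑ l, d l))
    (hj : ∀ l, d (some l) = 2 * j l) : ∃ j₀, d none = 2 * j₀ := by
  rw [Fintype.sum_option, Nat.even_add] at hev
  obtain ⟨j₀, hj₀⟩ := hev.2 (Finset.even_sum _ fun l _ => by
    rw [hj l]
    exact even_two_mul _)
  exact ⟨j₀, by omega⟩

theorem independent_of_noIntegralSum [Fact p.Prime] (he : 0 < e) {D : ℕ}
    (hirr : ∀ l d, ∀ f ∈ 𝓕 l d, Irreducible f) (hirrU : ∀ d, ∀ f ∈ 𝓖 d, Irreducible f)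
    (hX : ∀ l, IsK3Type p e (𝓕 l) (h l) (t l)) (hno : NoIntegralSum D h t)
    (hU : IsEvenDenominator p e 𝓖 D) :
    Independent p e (withU 𝓕 𝓖) (Set.range some) := by
  intro d f hf hev N s hc
  have h1 := fun l => (hX l).extract he (hirr l _ _ (hf (some l))) (hf (some l))
    (hc.marginal (some l))
  choose j hj ε hε hfreq using h1
  obtain ⟨j₀, hj₀⟩ := even_none hev hj
  have h2 : ∀ g, ∃ m : ℤ, (D : ℚ) * ∑ l, (ε l g : ℚ) / h l = m := by
    intro g
    obtain ⟨m, hm⟩ := integral_of_denominator he hirrU hU (hf none) hc hj₀ hj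
      (x := fun l => (ε l g : ℝ) / h l) (g := g) (fun l => (hε l g).2)
    exact ⟨m, by exact_mod_cast hm⟩
  have h3 := hno N ε hc.pos (fun l g => (hε l g).1) hfreq h2
  rintro _ ⟨l, rfl⟩
  refine ⟨by rw [hj l]; exact even_two_mul _, fun g => ?_⟩
  rw [(hε l g).2, h3 l g, hj l]
  push_cast
  ring

theorem independent_of_near [Fact p.Prime] (he : 0 < e) {h n : κ → ℕ}
    (hirr : ∀ l d, ∀ f ∈ 𝓕 l d, Irreducible f)
    (hX : ∀ l, SlopesNear p e (𝓕 l) (h l) (n l)) (hn : ∀ l, n l < h l)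
    (hc : ∀ l l', l ≠ l' → Nat.Coprime (h l) (h l')) : Independent p e 𝓕 Set.univ := by
  intro d f hf _ N s hco
  have h1 := fun l => (hX l).extract he (hirr l _ _ (hf l)) (hf l) (hco.marginal l)
  choose j hj m hm hs using h1
  intro l _
  refine ⟨by rw [hj l]; exact even_two_mul _, fun g => ?_⟩
  have h3 := hco.sum g
  have h4 : ∑ l, s l g = ∑ l, (j l : ℝ) + ∑ l, (m l g : ℝ) / h l := by
    rw [← Finset.sum_add_distrib]
    exact Finset.sum_congr rfl fun l _ => hs l g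
  have h5 : ∑ l, (d l : ℝ) = 2 * ∑ l, (j l : ℝ) := by
    rw [Finset.mul_sum]
    refine Finset.sum_congr rfl fun l _ => ?_
    rw [hj l]
    push_cast
    ring
  rw [h4, h5] at h3
  have h6 : ∑ l, (m l g : ℝ) / h l = 0 := by linarith
  have h7 : ∑ l, (m l g : ℚ) / h l = 0 := by exact_mod_cast h6
  have h8 := TS.noRelation_coprime (D := 1) hn hc (fun l => Nat.coprime_one_right _)
    (fun l => m l g) (fun l => hm l g) ⟨0, by rw [h7]; simp⟩ l
  rw [hs l g, h8, hj l]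
  push_cast
  ring

theorem independent_of_near_withU [Fact p.Prime] (he : 0 < e) {h n : κ → ℕ} {D : ℕ}
    (hirr : ∀ l d, ∀ f ∈ 𝓕 l d, Irreducible f) (hirrU : ∀ d, ∀ f ∈ 𝓖 d, Irreducible f)
    (hX : ∀ l, SlopesNear p e (𝓕 l) (h l) (n l)) (hn : ∀ l, n l < h l)
    (hc : ∀ l l', l ≠ l' → Nat.Coprime (h l) (h l')) (hcD : ∀ l, Nat.Coprime (h l) D)
    (hU : IsEvenDenominator p e 𝓖 D) :
    Independent p e (withU 𝓕 𝓖) (Set.range some) := by
  intro d f hf hev N s hco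
  have h1 := fun l => (hX l).extract he (hirr l _ _ (hf (some l))) (hf (some l))
    (hco.marginal (some l))
  choose j hj m hm hs using h1
  obtain ⟨j₀, hj₀⟩ := even_none hev hj
  have h2 : ∀ g, ∃ m' : ℤ, (D : ℚ) * ∑ l, (m l g : ℚ) / h l = m' := by
    intro g
    obtain ⟨m', hm'⟩ := integral_of_denominator he hirrU hU (hf none) hco hj₀ hj
      (x := fun l => (m l g : ℝ) / h l) (g := g) (fun l => hs l g)
    exact ⟨m', by exact_mod_cast hm'⟩
  rintro _ ⟨l, rfl⟩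
  refine ⟨by rw [hj l]; exact even_two_mul _, fun g => ?_⟩
  have h8 := TS.noRelation_coprime hn hc hcD (fun l => m l g) (fun l => hm l g) (h2 g) l
  rw [hs l g, h8, hj l]
  push_cast
  ring

end

end Pool.Agent.K4H33.WN
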