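import Pool.Agent.K4H33.WN.Defs
import Pool.Agent.K4H33.CP.Couple

/-!
# Relations between Weil numbers define couplings of the slope distributions
-/

set_option autoImplicit false

open Polynomial

namespace Pool.Agent.K4H33.WN

open Pool.Agent.K4H33.CP Pool.Agent.K4H33.TS Pool.Agent.R940

variable {K : Type*} [Field K] [CharZero K] {p e d : ℕ} {lam : K}

lemma IsWeilNumber.isIntegral (h : IsWeilNumber p e d lam) : IsIntegral ℚ lam :=
  h.integral.tower_top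

lemma IsWeilNumber.ne_zero [Fact p.Prime] (h : IsWeilNumber p e d lam) : lam ≠ 0 := by
  rintro rfl
  have h1 := h.abs 0 (by rw [minpoly.zero, aeval_X])
  rw [norm_zero, zero_pow two_ne_zero] at h1
  have hp : (0 : ℝ) < p := by exact_mod_cast (Fact.out : p.Prime).pos
  have h2 : (0 : ℝ) < ((p : ℝ) ^ e) ^ d := by positivity
  exact h2.ne h1

/-- **Kronecker**: a Weil number all of whose slopes are the half of the weight. -/
theorem IsWeilNumber.torsion [Fact p.Prime] (h : IsWeilNumber p e d lam)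
    (hsl : ∀ y : PadicAlgCl p, aeval y (minpoly ℚ lam) = 0 →
      ‖y‖ = ((p : ℝ) ^ e) ^ (-((d : ℝ) / 2))) :
    ∃ n : ℕ, 0 < n ∧ lam ^ (2 * n) = (p : K) ^ (e * d * n) := by
  have hp0 : (p : K) ≠ 0 := by exact_mod_cast (Fact.out : p.Prime).ne_zero
  have hppos : (0 : ℝ) < p := by exact_mod_cast (Fact.out : p.Prime).pos
  have hνq : IsIntegral ℚ lam := h.isIntegral
  have hν0 := h.ne_zero
  obtain ⟨P, hP1, hP3⟩ := h.integral
  obtain ⟨hxalg, key⟩ := conj_sq_div hνq (p ^ (e * d))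
  have hx0 : lam ^ 2 / ((p ^ (e * d) : ℕ) : K) ≠ 0 :=
    div_ne_zero (pow_ne_zero 2 hν0) (by push_cast; exact pow_ne_zero _ hp0)
  obtain ⟨n, hn, hxn⟩ := root_of_unity hxalg hx0 (by
    intro l _ y hy
    obtain ⟨z, hz, rfl⟩ := key _ y hy
    rw [Nat.cast_pow, norm_div, norm_pow, norm_pow]
    by_cases hl : l = p
    · subst hl
      rw [hsl z hz, TS.norm_natCast_p, ← Real.rpow_natCast, ← Real.rpow_mul (by positivity),
        ← Real.rpow_natCast (l : ℝ) e, ← Real.rpow_mul (by positivity),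
        ← Real.rpow_natCast, ← Real.rpow_neg_one, ← Real.rpow_mul (by positivity)]
      apply le_of_eq
      rw [div_eq_one_iff_eq (by positivity)]
      congr 1
      push_cast
      ring
    · rw [norm_natCast_ne hl, one_pow, div_one]
      have h1 : ‖z‖ ≤ 1 := padic_integral ⟨P, hP1, aeval_of_minpoly hP3 hz⟩
      exact pow_le_one₀ (norm_nonneg _) h1) (by
    intro y hy
    obtain ⟨z, hz, rfl⟩ := key _ y hy
    rw [Nat.cast_pow, norm_div, norm_pow, norm_pow, h.abs z hz, Complex.norm_natCast]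
    apply le_of_eq
    rw [div_eq_one_iff_eq (by positivity), pow_mul])
  refine ⟨n, hn, ?_⟩
  rw [Nat.cast_pow, div_pow, div_eq_one_iff_eq (pow_ne_zero _ (pow_ne_zero _ hp0)), ← pow_mul,
    ← pow_mul] at hxn
  exact hxn

section Rel

variable {κ : Type} [Fintype κ] {dd : κ → ℕ} {l₀ : κ → K} {b : ℕ} {c : ℤ}

/-- The weights in a relation. -/
lemma weights_of_relation [Fact p.Prime] (he : 0 < e)
    (hlam : ∀ l, IsWeilNumber p e (dd l) (l₀ l)) (hb : 0 < b)
    (hrel : (∏ l, l₀ l) ^ b = ((p : K) ^ e) ^ ((b : ℤ) * c)) :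
    ((∑ l, dd l : ℕ) : ℤ) = 2 * c := by
  have hp1 : (1 : ℝ) < p := by exact_mod_cast (Fact.out : p.Prime).one_lt
  have hp0 : (0 : ℝ) < p := zero_lt_one.trans hp1
  have hq1 : (1 : ℝ) < (p : ℝ) ^ e := one_lt_pow₀ hp1 he.ne'
  have hq0 : (0 : ℝ) < (p : ℝ) ^ e := zero_lt_one.trans hq1
  have hS : ∀ x ∈ Set.range l₀, IsIntegral ℚ x := by
    rintro x ⟨l, rfl⟩
    exact (hlam l).isIntegral
  have hmem : ∀ l, l₀ l ∈ IntermediateField.adjoin ℚ (Set.range l₀) := fun l =>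
    IntermediateField.subset_adjoin ℚ _ ⟨l, rfl⟩
  obtain ⟨φ, -⟩ := exists_emb (x := (1 : K)) (y := (1 : ℂ)) hS (one_mem _)
    (by rw [minpoly.one, map_sub, Polynomial.aeval_X, map_one, sub_self])
  have h0 : ∀ l, ‖φ ⟨l₀ l, hmem l⟩‖ ^ 2 = ((p : ℝ) ^ e) ^ dd l := fun l =>
    (hlam l).abs _ (minpoly_root_of_hom φ ⟨l₀ l, hmem l⟩)
  have h1 : (∏ l, φ ⟨l₀ l, hmem l⟩) ^ b = ((p : ℂ) ^ e) ^ ((b : ℤ) * c) := by
    rw [← map_prod, ← map_pow, ← map_natCast φ p, ← map_pow φ, ← map_zpow₀]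
    congr 1
    apply Subtype.ext
    push_cast
    exact_mod_cast hrel
  have h3 := congrArg (fun x => ‖x‖ ^ 2) h1
  simp only [norm_prod, norm_pow, norm_zpow, Complex.norm_natCast] at h3
  rw [← pow_mul, mul_comm b 2, pow_mul, ← Finset.prod_pow,
    Finset.prod_congr rfl fun l _ => h0 l, Finset.prod_pow_eq_pow_sum, ← pow_mul,
    ← zpow_natCast ((p : ℝ) ^ e), ← zpow_natCast (((p : ℝ) ^ e) ^ ((b : ℤ) * c)),
    ← zpow_mul] at h3
  have h5 := zpow_right_injective₀ hq0 hq1.ne' h3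
  have hb' : (b : ℤ) ≠ 0 := by exact_mod_cast hb.ne'
  apply mul_right_cancel₀ hb'
  push_cast at h5 ⊢
  linear_combination h5

/-- **A relation defines a coupling.** -/
theorem coupling_of_relation [Fact p.Prime] (he : 0 < e)
    (hlam : ∀ l, IsWeilNumber p e (dd l) (l₀ l)) (hb : 0 < b)
    (hrel : (∏ l, l₀ l) ^ b = ((p : K) ^ e) ^ ((b : ℤ) * c)) :
    ∃ (N : ℕ) (s : κ → Fin N → ℝ), IsCoupling p (fun _ => e) dd (fun l => minpoly ℚ (l₀ l)) N s ∧
      ∀ (l : κ) (y : PadicAlgCl p), aeval y (minpoly ℚ (l₀ l)) = 0 →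
        ∃ g, ‖y‖ = ((p : ℝ) ^ e) ^ (-s l g) := by
  classical
  have hp1 : (1 : ℝ) < p := by exact_mod_cast (Fact.out : p.Prime).one_lt
  have hp0 : (0 : ℝ) < p := zero_lt_one.trans hp1
  have hw := weights_of_relation he hlam hb hrel
  have hq : ∀ l, IsIntegral ℚ (l₀ l) := fun l => (hlam l).isIntegral
  have hS : ∀ x ∈ Set.range l₀, IsIntegral ℚ x := by
    rintro x ⟨l, rfl⟩
    exact hq l
  have hfin : Finite (Set.range l₀) := Set.finite_range l₀
  have hfd : FiniteDimensional ℚ (IntermediateField.adjoin ℚ (Set.range l₀)) :=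
    IntermediateField.finiteDimensional_adjoin hS
  have hmem : ∀ l, l₀ l ∈ IntermediateField.adjoin ℚ (Set.range l₀) := fun l =>
    IntermediateField.subset_adjoin ℚ _ ⟨l, rfl⟩
  obtain ⟨N, eG⟩ : ∃ N : ℕ, Nonempty (Fin N ≃
      (IntermediateField.adjoin ℚ (Set.range l₀) →ₐ[ℚ] PadicAlgCl p)) :=
    ⟨_, ⟨(Fintype.equivFin _).symm⟩⟩
  obtain ⟨eG⟩ := eG
  have hcard : Fintype.card (IntermediateField.adjoin ℚ (Set.range l₀) →ₐ[ℚ] PadicAlgCl p) =
      N := by rw [← Fintype.card_congr eG, Fintype.card_fin]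
  have hne : ∀ (φ : IntermediateField.adjoin ℚ (Set.range l₀) →ₐ[ℚ] PadicAlgCl p) (l : κ),
      φ ⟨l₀ l, hmem l⟩ ≠ 0 := by
    intro φ l h0
    exact (hlam l).ne_zero (congrArg Subtype.val ((map_eq_zero φ).1 h0))
  refine ⟨N, fun l g => sl p e (eG g ⟨l₀ l, hmem l⟩), ⟨?_, ?_, ?_⟩, ?_⟩
  · rw [← hcard, Fintype.card_pos_iff]
    obtain ⟨φ, -⟩ := exists_emb (x := (1 : K)) (y := (1 : PadicAlgCl p)) hS (one_mem _)
      (by rw [minpoly.one, map_sub, Polynomial.aeval_X, map_one, sub_self])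
    exact ⟨φ⟩
  · intro l x
    have h1 : {g | sl p e (eG g ⟨l₀ l, hmem l⟩) = x}.ncard =
        {φ : IntermediateField.adjoin ℚ (Set.range l₀) →ₐ[ℚ] PadicAlgCl p |
          ‖φ ⟨l₀ l, hmem l⟩‖ = ((p : ℝ) ^ e) ^ (-x)}.ncard := by
      refine Set.ncard_congr (fun g _ => eG g) ?_ ?_ ?_
      · intro g hg
        exact (sl_iff he (hne _ l) x).1 hg
      · intro g g' _ _ h
        exact eG.injective h
      · intro φ hφ
        refine ⟨eG.symm φ, ?_, eG.apply_symm_apply φ⟩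
        change sl p e (eG (eG.symm φ) ⟨l₀ l, hmem l⟩) = x
        rw [eG.apply_symm_apply]
        exact (sl_iff he (hne _ l) x).2 hφ
    have h2 := card_emb (F := ℚ) (A := PadicAlgCl p)
      (⟨l₀ l, hmem l⟩ : IntermediateField.adjoin ℚ (Set.range l₀))
      (fun y => ‖y‖ = ((p : ℝ) ^ e) ^ (-x))
    have h3 : minpoly ℚ (⟨l₀ l, hmem l⟩ : IntermediateField.adjoin ℚ (Set.range l₀)) =
        minpoly ℚ (l₀ l) :=
      (minpoly.algebraMap_eq (algebraMap (IntermediateField.adjoin ℚ (Set.range l₀))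
        K).injective ⟨l₀ l, hmem l⟩).symm
    rw [h3, hcard] at h2
    rw [h1]
    exact h2
  · intro g
    have h1 : (∏ l, eG g ⟨l₀ l, hmem l⟩) ^ b = ((p : PadicAlgCl p) ^ e) ^ ((b : ℤ) * c) := by
      rw [← map_prod, ← map_pow, ← map_natCast (eG g) p, ← map_pow (eG g), ← map_zpow₀]
      congr 1
      apply Subtype.ext
      push_cast
      exact_mod_cast hrel
    have h2 := slopes_of_relation (p := p) (A := κ) (c := c) (E := e * b) (e := fun _ => e)
      (b := fun _ => b) (z := fun l => eG g ⟨l₀ l, hmem l⟩) (Nat.mul_pos he hb)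
      (fun _ => he) (fun l => hne (eG g) l) (fun l => Or.inl (mul_comm _ _)) (by
        rw [Finset.prod_pow, h1, ← zpow_natCast, ← zpow_mul]
        congr 1
        push_cast
        ring)
    rw [h2]
    have h3 : ((∑ l, dd l : ℕ) : ℝ) = 2 * c := by exact_mod_cast hw
    push_cast at h3
    rw [h3]
    ring
  · intro l y hy
    obtain ⟨φ, hφ⟩ := exists_emb hS (hmem l) hy
    refine ⟨eG.symm φ, ?_⟩
    have h1 := norm_eq_sl (p := p) he (hne φ l)
    change ‖y‖ = ((p : ℝ) ^ e) ^ (-sl p e (eG (eG.symm φ) ⟨l₀ l, hmem l⟩))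
    rw [eG.apply_symm_apply, ← h1, hφ]

/-- **Independent slopes have only trivial relations.** -/
theorem trivial_of_independent [Fact p.Prime] (he : 0 < e)
    (hlam : ∀ l, IsWeilNumber p e (dd l) (l₀ l)) (hb : 0 < b)
    (hrel : (∏ l, l₀ l) ^ b = ((p : K) ^ e) ^ ((b : ℤ) * c)) {𝓕 : κ → ℕ → Set ℚ[X]} {S : Set κ}
    (hf : ∀ l, minpoly ℚ (l₀ l) ∈ 𝓕 l (dd l)) (hX : Independent p e 𝓕 S) :
    ∀ l ∈ S, ∃ m n : ℕ, dd l = 2 * m ∧ 0 < n ∧ l₀ l ^ n = ((p : K) ^ e) ^ (m * n) := by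
  have hw := weights_of_relation he hlam hb hrel
  obtain ⟨N, s, hs, hy⟩ := coupling_of_relation he hlam hb hrel
  have key := hX dd _ hf (by refine ⟨c.toNat, ?_⟩; omega) N s hs
  intro l hl
  obtain ⟨m, hm⟩ := (key l hl).1
  obtain ⟨n, hn, h1⟩ := (hlam l).torsion fun y hy' => by
    obtain ⟨g, hg⟩ := hy l y hy'
    rw [hg, (key l hl).2 g]
  refine ⟨m, 2 * n, by omega, by omega, ?_⟩
  rw [h1, ← pow_mul]
  congr 1
  rw [hm]
  ring

end Rel

end Pool.Agent.K4H33.WN
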